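import Pool.Agent.H.MP_cac0a5_al.Main

set_option autoImplicit false

namespace Pool.Agent.Results.MP_cac0a5_al.Q1

def IsLocalClone {X : Type} [TopologicalSpace X]
    (C : ∀ n : ℕ, Set ((Fin (n + 1) → X) → X)) : Prop :=
  (∀ (n : ℕ) (k : Fin (n + 1)), (fun x => x k) ∈ C n) ∧
  (∀ (n m : ℕ), ∀ f ∈ C n, ∀ g : Fin (n + 1) → (Fin (m + 1) → X) → X, (∀ i, g i ∈ C m) →
    (fun x => f fun i => g i x) ∈ C m) ∧
  ∀ n : ℕ, IsClosed (C n)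

def IsLocalMonoid {X : Type} [TopologicalSpace X] (M : Set (X → X)) : Prop :=
  id ∈ M ∧ (∀ f ∈ M, ∀ g ∈ M, f ∘ g ∈ M) ∧ IsClosed M

theorem result (X : Type) [Countable X] [Infinite X] [TopologicalSpace X] [DiscreteTopology X] :
    ∃ Φ : {C : ∀ n : ℕ, Set ((Fin (n + 1) → X) → X) // IsLocalClone C} →
        {M : Set (X → X) // IsLocalMonoid M},
      Function.Injective Φ ∧
      (∀ C D E, IsGLB {C, D} E → IsGLB {Φ C, Φ D} (Φ E)) ∧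
      (∀ C D E, IsLUB {C, D} E → IsLUB {Φ C, Φ D} (Φ E)) := by
  open Pool.Agent.H.MP_cac0a5_al in
  have hc : ∀ C : Ops X, IsLocalClone C ↔ Clone C := fun C =>
    ⟨fun h => ⟨h.1, h.2.1, fun n => (isClosed_iff_loc _).1 (h.2.2 n)⟩,
      fun h => ⟨h.proj, h.comp, fun n => (isClosed_iff_loc _).2 (h.loc n)⟩⟩
  open Pool.Agent.H.MP_cac0a5_al in
  have hm : ∀ N : Set (X → X), IsLocalMonoid N ↔ Mon N := fun C =>
    ⟨fun h => ⟨h.1, h.2.1, (isClosed_iff_loc _).1 h.2.2⟩,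
      fun h => ⟨h.one, h.comp, (isClosed_iff_loc _).2 h.loc⟩⟩
  obtain ⟨Φ, h1, h2, h3, h4⟩ := Pool.Agent.H.MP_cac0a5_al.main (X := X)
  have mono : ∀ C D : {C : ∀ n : ℕ, Set ((Fin (n + 1) → X) → X) // IsLocalClone C},
      Φ C.1 ⊆ Φ D.1 ↔ C ≤ D := fun C D => h2 _ _ ((hc _).1 C.2)
  refine ⟨fun C => ⟨Φ C.1, (hm _).2 (h1 _ ((hc _).1 C.2))⟩, fun C D e => ?_,
    fun C D E hE => ⟨?_, fun N hN => ?_⟩, fun C D E hE => ⟨?_, fun N hN => ?_⟩⟩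
  · have e' : Φ C.1 = Φ D.1 := congrArg Subtype.val e
    exact le_antisymm ((mono _ _).1 e'.le) ((mono _ _).1 e'.ge)
  · rintro _ (rfl | rfl)
    · exact (mono _ _).2 (hE.1 (Or.inl rfl))
    · exact (mono _ _).2 (hE.1 (Or.inr rfl))
  · have hI : IsLocalClone (C.1 ⊓ D.1) :=
      ⟨fun n k => ⟨C.2.1 n k, D.2.1 n k⟩, fun n m f hf g hg =>
        ⟨C.2.2.1 n m f hf.1 g fun i => (hg i).1, D.2.2.1 n m f hf.2 g fun i => (hg i).2⟩,
        fun n => (C.2.2.2 n).inter (D.2.2.2 n)⟩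
    have : (⟨_, hI⟩ : Subtype _) ≤ E := hE.2 (by
      rintro _ (rfl | rfl)
      · exact fun n f hf => hf.1
      · exact fun n f hf => hf.2)
    exact fun f hf => (mono _ _).2 this (h3 _ _ ⟨hN (Or.inl rfl) hf, hN (Or.inr rfl) hf⟩)
  · rintro _ (rfl | rfl)
    · exact (mono _ _).2 (hE.1 (Or.inl rfl))
    · exact (mono _ _).2 (hE.1 (Or.inr rfl))
  · obtain ⟨K, k1, k2, k3⟩ := h4 C.1 N.1 ((hc _).1 C.2) ((hm _).1 N.2) (hN (Or.inl rfl))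
    have : E ≤ ⟨K, (hc _).2 k1⟩ := hE.2 (by
      rintro _ (rfl | rfl)
      · exact k3 _ ((hc _).1 (Subtype.prop _)) (hN (Or.inl rfl))
      · exact k3 _ ((hc _).1 (Subtype.prop _)) (hN (Or.inr rfl)))
    exact fun f hf => k2 ((mono _ _).2 this hf)

end Pool.Agent.Results.MP_cac0a5_al.Q1
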